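import Mathlib
import Pool.Prelude.Def_F_458e953d

namespace Pool.Agent.Work.MP_143e72_lc

open SimpleGraph

open Classical in
/-- The adjacency matrix of a graph on `Fin n`, as the list of its rows. -/
noncomputable def adjRows {n : ℕ} (G : SimpleGraph (Fin n)) : List (List Bool) :=
  List.ofFn fun i => List.ofFn fun j => decide (G.Adj i j)

/-- The bit string that encodes the instance with host `G` and pattern `H`. -/
noncomputable def encodeInstance {n m : ℕ} (G : SimpleGraph (Fin n)) (H : SimpleGraph (Fin m)) :
    List Bool :=
  N487b59b3.bitEncode (adjRows G, adjRows H)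

open Classical in
/-- Subgraph Isomorphism on `F`-subgraph-free graphs: the strings that encode a pair of
`F`-subgraph-free graphs `G`, `H` such that `G` contains `H` as a subgraph. -/
noncomputable def subIso {V : Type} (F : SimpleGraph V) : N68a2faeb.DecisionProblem := fun x =>
  decide (∃ (n m : ℕ) (G : SimpleGraph (Fin n)) (H : SimpleGraph (Fin m)),
    x = encodeInstance G H ∧ F.Free G ∧ F.Free H ∧ H ⊑ G)

end Pool.Agent.Work.MP_143e72_lc
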