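import Mathlib
import Pool.Agent.Work.MP_143e72_lc.Defs
import Pool.Agent.Lib.Poly.CookLevin

-- merged part: Pool.Agent.Work.MP_143e72_lc.Stars
section
/-!
Double-star forests given by centres, sizes and a matching between centres.
-/

namespace Pool.Agent.Work.MP_143e72_lc

open SimpleGraph

/-- The forest with vertex set `C × Fin (K+1)`: `(c,0)` is a centre, joined to its leaves
`(c,t)` with `1 ≤ t ≤ size c` and to the centre of its mate. -/
def ds {C : Type} (K : ℕ) (size : C → ℕ) (mate : C → C → Prop)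
    (hs : ∀ a b, mate a b → mate b a) (hi : ∀ a, ¬ mate a a) :
    SimpleGraph (C × Fin (K + 1)) where
  Adj u v := (u.2.val = 0 ∧ v.2.val = 0 ∧ mate u.1 v.1) ∨
    (u.1 = v.1 ∧ u.2.val = 0 ∧ 1 ≤ v.2.val ∧ v.2.val ≤ size u.1) ∨
    (u.1 = v.1 ∧ v.2.val = 0 ∧ 1 ≤ u.2.val ∧ u.2.val ≤ size u.1)
  symm := ⟨by
    rintro ⟨a, s⟩ ⟨b, t⟩ (⟨h1, h2, h3⟩ | ⟨h1, h2, h3, h4⟩ | ⟨h1, h2, h3, h4⟩)
    · exact Or.inl ⟨h2, h1, hs _ _ h3⟩
    · dsimp only at h1 h4; subst h1; exact Or.inr (Or.inr ⟨rfl, h2, h3, h4⟩)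
    · dsimp only at h1 h4; subst h1; exact Or.inr (Or.inl ⟨rfl, h2, h3, h4⟩)⟩
  loopless := ⟨by
    rintro ⟨a, s⟩ (⟨_, _, h3⟩ | ⟨_, h2, h3, _⟩ | ⟨_, h2, h3, _⟩)
    · exact hi _ h3
    · omega
    · omega⟩

section
variable {C : Type} {K : ℕ} {size : C → ℕ} {mate : C → C → Prop}
  {hs : ∀ a b, mate a b → mate b a} {hi : ∀ a, ¬ mate a a}

theorem ds_adj (u v : C × Fin (K + 1)) : (ds K size mate hs hi).Adj u v ↔
    (u.2.val = 0 ∧ v.2.val = 0 ∧ mate u.1 v.1) ∨
    (u.1 = v.1 ∧ u.2.val = 0 ∧ 1 ≤ v.2.val ∧ v.2.val ≤ size u.1) ∨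
    (u.1 = v.1 ∧ v.2.val = 0 ∧ 1 ≤ u.2.val ∧ u.2.val ≤ size u.1) := Iff.rfl

/-- A vertex with two different neighbours is a centre. -/
theorem ds_centre {u v w : C × Fin (K + 1)} (h1 : (ds K size mate hs hi).Adj u v)
    (h2 : (ds K size mate hs hi).Adj u w) (hvw : v ≠ w) : u.2.val = 0 := by
  by_contra h
  apply hvw
  rw [ds_adj] at h1 h2
  have e1 : u.1 = v.1 ∧ v.2.val = 0 := by
    rcases h1 with h1 | h1 | h1
    · exact absurd h1.1 h
    · exact absurd h1.2.1 h
    · exact ⟨h1.1, h1.2.1⟩
  have e2 : u.1 = w.1 ∧ w.2.val = 0 := by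
    rcases h2 with h2 | h2 | h2
    · exact absurd h2.1 h
    · exact absurd h2.2.1 h
    · exact ⟨h2.1, h2.2.1⟩
  exact Prod.ext (e1.1.symm.trans e2.1) (Fin.ext (e1.2.trans e2.2.symm))

theorem ds_mate {u v : C × Fin (K + 1)} (h : (ds K size mate hs hi).Adj u v)
    (hu : u.2.val = 0) (hv : v.2.val = 0) : mate u.1 v.1 := by
  rw [ds_adj] at h
  rcases h with h | h | h
  · exact h.2.2
  · omega
  · omega

/-- With at most one mate per centre there is no path on five vertices. -/
theorem ds_free (hu : ∀ a b c, mate a b → mate a c → b = c) :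
    (pathGraph 5).Free (ds K size mate hs hi) := by
  rintro ⟨f⟩
  have adj : ∀ i j : Fin 5, i.val + 1 = j.val → (ds K size mate hs hi).Adj (f i) (f j) :=
    fun i j h => f.toHom.map_adj (pathGraph_adj.2 (Or.inl h))
  have ne : ∀ i j : Fin 5, i ≠ j → f i ≠ f j := fun i j h e => h (f.injective e)
  have c1 : (f 1).2.val = 0 := ds_centre (adj 0 1 rfl).symm (adj 1 2 rfl) (ne _ _ (by decide))
  have c2 : (f 2).2.val = 0 := ds_centre (adj 1 2 rfl).symm (adj 2 3 rfl) (ne _ _ (by decide))
  have c3 : (f 3).2.val = 0 := ds_centre (adj 2 3 rfl).symm (adj 3 4 rfl) (ne _ _ (by decide))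
  have m1 := ds_mate (adj 1 2 rfl).symm c2 c1
  have m3 := ds_mate (adj 2 3 rfl) c2 c3
  exact ne 1 3 (by decide) (Prod.ext (hu _ _ _ m1 m3) (Fin.ext (c1.trans c3.symm)))

end

section
variable {C : Type} {K : ℕ} {sP sH : C → ℕ} {mP mH : C → C → Prop}
  {hsP : ∀ a b, mP a b → mP b a} {hiP : ∀ a, ¬ mP a a}
  {hsH : ∀ a b, mH a b → mH b a} {hiH : ∀ a, ¬ mH a a}

theorem ds_contained_of (g : C → C) (hg : Function.Injective g) (h1 : ∀ c, sP c ≤ sH (g c))
    (h2 : ∀ a b, mP a b → mH (g a) (g b)) :
    ds K sP mP hsP hiP ⊑ ds K sH mH hsH hiH := by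
  refine ⟨⟨⟨fun u => (g u.1, u.2), ?_⟩, ?_⟩⟩
  · rintro ⟨a, s⟩ ⟨b, t⟩ h
    rw [ds_adj] at h ⊢
    dsimp only at h ⊢
    rcases h with ⟨e1, e2, e3⟩ | ⟨e1, e2, e3, e4⟩ | ⟨e1, e2, e3, e4⟩
    · exact Or.inl ⟨e1, e2, h2 _ _ e3⟩
    · subst e1; exact Or.inr (Or.inl ⟨rfl, e2, e3, e4.trans (h1 _)⟩)
    · subst e1; exact Or.inr (Or.inr ⟨rfl, e2, e3, e4.trans (h1 _)⟩)
  · rintro ⟨a, s⟩ ⟨b, t⟩ h
    have h' : (g a, s) = (g b, t) := h
    rw [Prod.mk.injEq] at h'
    exact Prod.ext (hg h'.1) h'.2

theorem of_ds_contained [Finite C] (h2 : ∀ c, 2 ≤ sP c) (hK : ∀ c, sP c ≤ K)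
    (h : ds K sP mP hsP hiP ⊑ ds K sH mH hsH hiH) :
    ∃ g : C → C, Function.Bijective g ∧ (∀ c, sP c ≤ sH (g c)) ∧
      ∀ a b, mP a b → mH (g a) (g b) := by
  obtain ⟨f⟩ := h
  have leaf : ∀ (c : C) (t : Fin (K + 1)), 1 ≤ t.val → t.val ≤ sP c →
      (ds K sH mH hsH hiH).Adj (f (c, 0)) (f (c, t)) := fun c t h1 h3 =>
    f.toHom.map_adj ((ds_adj _ _).2 (Or.inr (Or.inl ⟨rfl, rfl, h1, h3⟩)))
  have cen : ∀ c, (f (c, 0)).2.val = 0 := by
    intro c
    have a := h2 c
    have b := hK c
    refine ds_centre (leaf c ⟨1, by omega⟩ le_rfl (by simpa using by omega))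
      (leaf c ⟨2, by omega⟩ (by simp) (by simpa using a)) ?_
    intro e
    have := f.injective e
    simp at this
  have fe : ∀ c, f (c, 0) = ((f (c, 0)).1, 0) := fun c => Prod.ext rfl (Fin.ext (cen c))
  have ginj : Function.Injective fun c => (f (c, 0)).1 := by
    intro a b e
    have : f (a, 0) = f (b, 0) := by rw [fe a, fe b]; exact Prod.ext e rfl
    simpa using f.injective this
  have gbij := Finite.injective_iff_bijective.1 ginj
  refine ⟨fun c => (f (c, 0)).1, gbij, ?_, ?_⟩
  · intro c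
    have b := hK c
    have key : ∀ t : Fin (K + 1), 1 ≤ t.val → t.val ≤ sP c →
        (f (c, t)).1 = (f (c, 0)).1 ∧ 1 ≤ (f (c, t)).2.val ∧
          (f (c, t)).2.val ≤ sH (f (c, 0)).1 := by
      intro t h1 h3
      have nz : (f (c, t)).2.val ≠ 0 := by
        intro e
        obtain ⟨d, hd⟩ := gbij.2 (f (c, t)).1
        have : f (d, 0) = f (c, t) := by
          rw [fe d]; exact Prod.ext hd (Fin.ext e.symm)
        have := f.injective this
        rw [Prod.mk.injEq] at this
        have := congrArg Fin.val this.2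
        simp at this
        omega
      have := leaf c t h1 h3
      rw [ds_adj] at this
      rcases this with h | h | h
      · exact absurd h.2.1 nz
      · exact ⟨h.1.symm, h.2.2.1, h.2.2.2⟩
      · exact absurd h.2.1 nz
    let φ : Fin (sP c) → Fin (sH (f (c, 0)).1) := fun i =>
      ⟨(f (c, ⟨i.val + 1, by have := i.2; omega⟩)).2.val - 1, by
        have := key ⟨i.val + 1, by have := i.2; omega⟩ (by simp) (by have := i.2; simp)
        omega⟩
    have φi : Function.Injective φ := by
      intro i j e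
      have ki := key ⟨i.val + 1, by have := i.2; omega⟩ (by simp) (by have := i.2; simp)
      have kj := key ⟨j.val + 1, by have := j.2; omega⟩ (by simp) (by have := j.2; simp)
      have e' := congrArg Fin.val e
      simp only [φ] at e'
      have : f (c, ⟨i.val + 1, by have := i.2; omega⟩) =
          f (c, ⟨j.val + 1, by have := j.2; omega⟩) :=
        Prod.ext (ki.1.trans kj.1.symm) (Fin.ext (by omega))
      have := f.injective this
      simp only [Prod.mk.injEq, Fin.mk.injEq, true_and] at this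
      exact Fin.ext (by omega)
    simpa using Fintype.card_le_of_injective φ φi
  · intro a b hab
    exact ds_mate (f.toHom.map_adj ((ds_adj (a, 0) (b, 0)).2 (Or.inl ⟨rfl, rfl, hab⟩)))
      (cen a) (cen b)

end

end Pool.Agent.Work.MP_143e72_lc
end

-- merged part: Pool.Agent.Work.MP_143e72_lc.Gadget
section
/-!
The reduction from CNF satisfiability to subgraph isomorphism of double-star forests:
the combinatorial core.
-/

namespace Pool.Agent.Work.MP_143e72_lc

open SimpleGraph

/-- Centres: literal, column, side, kind. -/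
abbrev Cen := (ℕ × Bool) × ℕ × Bool × Bool

def blk (l : ℕ × Bool) (j : ℕ) (side : Bool) : ℕ :=
  if side then (if j = 0 then 4 * l.1 + 2 else 4 * j + 3) else 4 * l.1 + (if l.2 then 1 else 0)

def lo (j : ℕ) (side : Bool) : ℕ := if side then 0 else j - 1

def hi (φ : List (List (ℕ × Bool))) (l : ℕ × Bool) (j : ℕ) (side : Bool) : ℕ :=
  if side then (if j = 0 then 1 else if l ∈ φ.getD (j - 1) [] then 1 else 0)
  else (if j = 0 then φ.length else j)

def st (l : ℕ × Bool) (j : ℕ) (side : Bool) : ℕ :=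
  if side then (if j = 0 then (if l.2 then 1 else 0) else if l = (0, true) then 1 else 0) else j

def offH (φ : List (List (ℕ × Bool))) (c : Cen) : ℕ :=
  if c.2.2.2 = c.2.2.1 then hi φ c.1 c.2.1 c.2.2.1 else lo c.2.1 c.2.2.1

def offP (c : Cen) : ℕ :=
  if c.2.2.2 then st c.1 c.2.1 c.2.2.1 else lo c.2.1 c.2.2.1

def sizeH (φ : List (List (ℕ × Bool))) (c : Cen) : ℕ :=
  2 + (φ.length + 2) * blk c.1 c.2.1 c.2.2.1 + offH φ c

def sizeP (φ : List (List (ℕ × Bool))) (c : Cen) : ℕ :=
  2 + (φ.length + 2) * blk c.1 c.2.1 c.2.2.1 + offP c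

def mateH (c d : Cen) : Prop :=
  c.1 = d.1 ∧ c.2.1 = d.2.1 ∧ c.2.2.1 ≠ d.2.2.1 ∧ c.2.2.2 = d.2.2.2

def mateP (c d : Cen) : Prop := mateH c d ∧ c.2.2.2 = false

/-- The finite type of centres. -/
abbrev FCen (n m : ℕ) := (Fin n × Bool) × Fin (m + 1) × Bool × Bool

def toCen {n m : ℕ} (c : FCen n m) : Cen := ((c.1.1.val, c.1.2), c.2.1.val, c.2.2.1, c.2.2.2)

theorem toCen_injective {n m : ℕ} : Function.Injective (toCen (n := n) (m := m)) := by
  rintro ⟨⟨a, b⟩, c, d, e⟩ ⟨⟨a', b'⟩, c', d', e'⟩ h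
  simp only [toCen, Prod.mk.injEq] at h
  obtain ⟨⟨h1, h2⟩, h3, h4, h5⟩ := h
  rw [Fin.ext h1, h2, Fin.ext h3, h4, h5]

def Sat (φ : List (List (ℕ × Bool))) : Prop :=
  ∃ a : ℕ → Bool, ∀ c ∈ φ, ∃ l ∈ c, a l.1 = l.2

theorem offH_lt (φ : List (List (ℕ × Bool))) (c : Cen) (h : c.2.1 ≤ φ.length) :
    offH φ c < φ.length + 2 := by
  unfold offH hi lo; split_ifs <;> omega

theorem offP_lt (φ : List (List (ℕ × Bool))) (c : Cen) (h : c.2.1 ≤ φ.length) :
    offP c < φ.length + 2 := by
  unfold offP st lo; split_ifs <;> omega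

theorem blk_false_ne_true (l l' : ℕ × Bool) (j j' : ℕ) : blk l j false ≠ blk l' j' true := by
  simp only [blk]; split_ifs <;> first | omega | simp_all

theorem blk_side {l l' : ℕ × Bool} {j j' : ℕ} {s s' : Bool} (h : blk l j s = blk l' j' s') :
    s = s' := by
  cases s <;> cases s'
  · rfl
  · exact absurd h (blk_false_ne_true _ _ _ _)
  · exact absurd h.symm (blk_false_ne_true _ _ _ _)
  · rfl

theorem blk_false {l l' : ℕ × Bool} {j j' : ℕ} (h : blk l j false = blk l' j' false) :
    l = l' := by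
  obtain ⟨x, s⟩ := l
  obtain ⟨x', s'⟩ := l'
  simp only [blk] at h
  cases s <;> cases s' <;> simp at h ⊢ <;> omega

theorem blk_true {l l' : ℕ × Bool} {j j' : ℕ} (h : blk l j true = blk l' j' true) :
    j = j' ∧ (j = 0 → l.1 = l'.1) := by
  simp only [blk, if_true] at h
  split_ifs at h <;> omega

theorem sat_of_map (φ : List (List (ℕ × Bool))) (n : ℕ) (hn : 0 < n)
    (g : FCen n φ.length → FCen n φ.length) (hg : Function.Bijective g)
    (h1 : ∀ c, sizeP φ (toCen c) ≤ sizeH φ (toCen (g c)))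
    (h2 : ∀ a b, mateP (toCen a) (toCen b) → mateH (toCen (g a)) (toCen (g b))) : Sat φ := by
  classical
  let B : FCen n φ.length → ℕ := fun c => blk (c.1.1.val, c.1.2) c.2.1.val c.2.2.1
  have hP : ∀ c : FCen n φ.length, offP (toCen c) < φ.length + 2 := fun c =>
    offP_lt φ _ (Nat.lt_succ_iff.1 c.2.1.2)
  have hH : ∀ c : FCen n φ.length, offH φ (toCen c) < φ.length + 2 := fun c =>
    offH_lt φ _ (Nat.lt_succ_iff.1 c.2.1.2)
  have sP : ∀ c, sizeP φ (toCen c) = 2 + (φ.length + 2) * B c + offP (toCen c) := fun c => rfl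
  have sH : ∀ c, sizeH φ (toCen c) = 2 + (φ.length + 2) * B c + offH φ (toCen c) := fun c => rfl
  have hle : ∀ c, B c ≤ B (g c) := by
    intro c
    have a := h1 c
    rw [sP, sH] at a
    have b := hH (g c)
    by_contra hc
    have : B (g c) + 1 ≤ B c := by omega
    have := Nat.mul_le_mul_left (φ.length + 2) this
    rw [Nat.mul_add] at this
    omega
  have hsum : ∑ c, B c = ∑ c, B (g c) := (hg.sum_comp B).symm
  have heq : ∀ c, B c = B (g c) := fun c =>
    (Finset.sum_eq_sum_iff_of_le (fun c _ => hle c)).1 hsum c (Finset.mem_univ c)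
  have hoff : ∀ c, offP (toCen c) ≤ offH φ (toCen (g c)) := by
    intro c
    have a := h1 c
    rw [sP, sH, heq c] at a
    omega
  let o : (Fin n × Bool) → Fin (φ.length + 1) → Bool := fun l j => (g (l, j, false, false)).2.2.2
  have gd : ∀ l j s, g (l, j, s, false) = (l, j, s, o l j) := by
    intro l j
    have m := h2 (l, j, false, false) (l, j, true, false) (by simp [mateP, mateH, toCen])
    have e0 := heq (l, j, false, false)
    have e1 := heq (l, j, true, false)
    simp only [B] at e0 e1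
    have s0 := blk_side e0
    have s1 := blk_side e1
    rw [← s0] at e0
    rw [← s1] at e1
    have a0 := blk_false e0
    have a1 := (blk_true e1).1
    simp only [mateH, toCen, Prod.mk.injEq] at m a0
    obtain ⟨⟨m1, m2⟩, m3, -, m5⟩ := m
    intro s
    cases s
    · refine Prod.ext (Prod.ext (Fin.ext a0.1.symm) a0.2.symm)
        (Prod.ext (Fin.ext (by rw [m3, ← a1])) (Prod.ext s0.symm rfl))
    · refine Prod.ext (Prod.ext (Fin.ext (by rw [← m1, ← a0.1])) (by rw [← m2, ← a0.2]))
        (Prod.ext (Fin.ext a1.symm) (Prod.ext s1.symm m5.symm))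
  have gs : ∀ l j s, ∃ l' j', g (l, j, s, true) = (l', j', s, !o l' j') ∧
      blk (l.1.val, l.2) j.val s = blk (l'.1.val, l'.2) j'.val s := by
    intro l j s
    have e := heq (l, j, s, true)
    simp only [B] at e
    have s0 := blk_side e
    rw [← s0] at e
    refine ⟨(g (l, j, s, true)).1, (g (l, j, s, true)).2.1, ?_, e⟩
    refine Prod.ext rfl (Prod.ext rfl (Prod.ext s0.symm ?_))
    by_contra hc
    have h3 : g (l, j, s, true) = g ((g (l, j, s, true)).1, (g (l, j, s, true)).2.1, s, false) := by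
      rw [gd]
      refine Prod.ext rfl (Prod.ext rfl (Prod.ext s0.symm ?_))
      revert hc
      dsimp only
      cases (g (l, j, s, true)).2.2.2 <;> cases o (g (l, j, s, true)).1 (g (l, j, s, true)).2.1 <;>
        simp
    have := hg.1 h3
    simp at this
  have claimA : ∀ x : Fin n, o (x, true) 0 = false ∨ o (x, false) 0 = false := by
    intro x
    obtain ⟨⟨y, s⟩, j', e, hb⟩ := gs (x, true) 0 true
    have h3 := hoff ((x, true), 0, true, true)
    rw [e] at h3
    obtain ⟨b1, b2⟩ := blk_true hb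
    have hj : j' = 0 := Fin.ext (by simpa using b1.symm)
    have hy : y = x := Fin.ext (by simpa using (b2 rfl).symm)
    subst hj hy
    have : o (y, s) 0 = false := by
      by_contra hc
      simp only [Bool.not_eq_false] at hc
      simp [offP, offH, toCen, st, lo, hc] at h3
    cases s
    · exact Or.inr this
    · exact Or.inl this
  have claimB : ∀ j : Fin (φ.length + 1), j.val ≠ 0 → ∃ l, o l j = false ∧
      (l.1.val, l.2) ∈ φ.getD (j.val - 1) [] := by
    intro j hj
    obtain ⟨l, j', e, hb⟩ := gs (⟨0, hn⟩, true) j true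
    have h3 := hoff ((⟨0, hn⟩, true), j, true, true)
    rw [e] at h3
    have hj' : j' = j := Fin.ext (blk_true hb).1.symm
    subst hj'
    have ho : o l j' = false := by
      by_contra hc
      simp only [Bool.not_eq_false] at hc
      simp [offP, offH, toCen, st, lo, hc, hj] at h3
    refine ⟨l, ho, ?_⟩
    by_contra hc
    simp only [offP, offH, toCen, st, hi, ho, hj, hc] at h3
    simp at h3
  have claimC : ∀ l (j : Fin (φ.length + 1)), j.val ≠ 0 → o l j = false → o l 0 = true := by
    intro l j hj hoj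
    by_contra hc
    simp only [Bool.not_eq_true] at hc
    have gl : ∀ i, ∃ i', g (l, i, false, true) = (l, i', false, !o l i') := by
      intro i
      obtain ⟨l', i', e, hb⟩ := gs l i false
      have := blk_false hb
      simp only [Prod.mk.injEq] at this
      have hl : l' = l := Prod.ext (Fin.ext this.1.symm) this.2.symm
      subst hl
      exact ⟨i', e⟩
    choose τ hτ using gl
    have τi : Function.Injective τ := by
      intro i i' e
      have : g (l, i, false, true) = g (l, i', false, true) := by rw [hτ, hτ, e]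
      simpa using hg.1 this
    have τb := Finite.injective_iff_bijective.1 τi
    let rem : Fin (φ.length + 1) → ℕ := fun i => offH φ (toCen (l, i, false, !o l i))
    have r1 : ∀ i, i.val ≤ rem (τ i) := by
      intro i
      have h3 := hoff (l, i, false, true)
      rw [hτ] at h3
      simpa [offP, toCen, st, rem] using h3
    have r2 : ∀ i, rem i ≤ i.val := by
      intro i
      by_cases hi0 : i = 0
      · subst hi0; simp [rem, offH, toCen, hc, lo]
      · have : i.val ≠ 0 := fun e => hi0 (Fin.ext e)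
        simp only [rem, offH, toCen, hi, lo, this, Bool.false_eq_true, if_false]
        split_ifs <;> omega
    have r3 : rem j < j.val := by
      simp only [rem, offH, toCen, hoj, lo, Bool.not_false, Bool.false_eq_true,
        Bool.true_eq_false, if_false]
      omega
    have s1 : ∑ i : Fin (φ.length + 1), i.val ≤ ∑ i, rem (τ i) :=
      Finset.sum_le_sum fun i _ => r1 i
    rw [τb.sum_comp rem] at s1
    have s2 : ∑ i, rem i < ∑ i : Fin (φ.length + 1), i.val :=
      Finset.sum_lt_sum (fun i _ => r2 i) ⟨j, Finset.mem_univ _, r3⟩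
    omega
  refine ⟨fun x => if h : x < n then !o (⟨x, h⟩, false) 0 else false, ?_⟩
  intro c hc
  obtain ⟨i, hi, rfl⟩ := List.getElem_of_mem hc
  obtain ⟨⟨x, s⟩, ho, hm⟩ := claimB ⟨i + 1, by omega⟩ (by simp)
  refine ⟨(x.val, s), by simpa [hi] using hm, ?_⟩
  have h3 := claimC _ _ (by simp) ho
  simp only [x.2, dif_pos, Fin.eta]
  cases s
  · simp [h3]
  · rcases claimA x with h4 | h4
    · rw [h3] at h4; cases h4
    · simp [h4]

theorem map_of_sat (φ : List (List (ℕ × Bool))) (n : ℕ) (hn : 0 < n)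
    (hφ : ∀ c ∈ φ, ∀ l ∈ c, l.1 < n) (h : Sat φ) :
    ∃ g : FCen n φ.length → FCen n φ.length, Function.Injective g ∧
      (∀ c, sizeP φ (toCen c) ≤ sizeH φ (toCen (g c))) ∧
      ∀ a b, mateP (toCen a) (toCen b) → mateH (toCen (g a)) (toCen (g b)) := by
  classical
  obtain ⟨a, ha⟩ := h
  have hgood : ∀ j : Fin (φ.length + 1), ∃ l : Fin n × Bool, j.val ≠ 0 →
      (l.1.val, l.2) ∈ φ.getD (j.val - 1) [] ∧ a l.1.val = l.2 := by
    intro j
    by_cases hj : j.val = 0
    · exact ⟨(⟨0, hn⟩, true), fun h => absurd hj h⟩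
    · have hlt : j.val - 1 < φ.length := by have := j.2; omega
      obtain ⟨l, hl, e⟩ := ha _ (List.getElem_mem hlt)
      refine ⟨(⟨l.1, hφ _ (List.getElem_mem hlt) l hl⟩, l.2), fun _ => ⟨?_, e⟩⟩
      simpa [hlt] using hl
  choose good hgood using hgood
  let o : (Fin n × Bool) → Fin (φ.length + 1) → Bool := fun l j =>
    if j.val = 0 then decide (a l.1.val = l.2) else !decide (a l.1.val = l.2)
  let π : Bool → (Fin n × Bool) × Fin (φ.length + 1) → (Fin n × Bool) × Fin (φ.length + 1) :=
    fun s p => if s then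
      (if p.2.val = 0 then (p.1.1, xor p.1.2 (a p.1.1.val))
        else Equiv.swap (⟨0, hn⟩, true) (good p.2) p.1, p.2)
      else (p.1, if a p.1.1.val = p.1.2 then p.2 + 1 else p.2)
  have πi : ∀ s, Function.Injective (π s) := by
    rintro s ⟨⟨x, b⟩, j⟩ ⟨⟨x', b'⟩, j'⟩ e
    cases s
    · simp only [π, Bool.false_eq_true, if_false, Prod.mk.injEq] at e
      obtain ⟨⟨rfl, rfl⟩, e⟩ := e
      split_ifs at e
      · rw [add_left_injective 1 e]
      · rw [e]
    · simp only [π, if_true, Prod.mk.injEq] at e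
      obtain ⟨e, rfl⟩ := e
      split_ifs at e
      · simp only [Prod.mk.injEq] at e
        obtain ⟨rfl, e⟩ := e
        rw [Bool.xor_left_inj.1 e]
      · rw [(Equiv.swap _ _).injective e]
  have πb : ∀ s p, blk ((π s p).1.1.val, (π s p).1.2) (π s p).2.val s =
      blk (p.1.1.val, p.1.2) p.2.val s := by
    rintro s ⟨⟨x, b⟩, j⟩
    cases s
    · simp [π, blk]
    · by_cases hj : j.val = 0
      · simp only [π, blk, hj, if_true]
      · simp only [π, blk, hj, if_true, if_false]
  refine ⟨fun c => if c.2.2.2 then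
      ((π c.2.2.1 (c.1, c.2.1)).1, (π c.2.2.1 (c.1, c.2.1)).2, c.2.2.1,
        !o (π c.2.2.1 (c.1, c.2.1)).1 (π c.2.2.1 (c.1, c.2.1)).2)
      else (c.1, c.2.1, c.2.2.1, o c.1 c.2.1), ?_, ?_, ?_⟩
  · rintro ⟨l, j, s, k⟩ ⟨l', j', s', k'⟩ e
    cases k <;> cases k' <;> simp only [Bool.false_eq_true, if_false, if_true, Prod.mk.injEq] at e
    · obtain ⟨rfl, rfl, rfl, -⟩ := e; rfl
    · obtain ⟨e1, e2, rfl, e4⟩ := e
      rw [← e1, ← e2] at e4
      simp at e4
    · obtain ⟨e1, e2, rfl, e4⟩ := e
      rw [e1, e2] at e4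
      simp at e4
    · obtain ⟨e1, e2, rfl, -⟩ := e
      have := πi s (Prod.ext e1 e2)
      simp only [Prod.mk.injEq] at this
      rw [this.1, this.2]
  · rintro ⟨l, j, s, k⟩
    cases k
    · simp only [Bool.false_eq_true, if_false, sizeP, sizeH, toCen, offP, offH, hi, lo]
      have := j.2
      refine Nat.add_le_add_left ?_ _
      cases s
      · simp only [Bool.false_eq_true, if_false]
        split_ifs <;> omega
      · simp only [if_true]
        exact Nat.zero_le _
    · simp only [if_true, sizeP, sizeH, toCen]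
      rw [πb s (l, j)]
      refine Nat.add_le_add_left ?_ _
      obtain ⟨x, b⟩ := l
      cases s
      · by_cases ht : a x.val = b
        · by_cases hj : j = Fin.last _
          · subst hj
            simp [offP, offH, st, π, o, ht, hi]
          · have : (j + 1).val = j.val + 1 := Fin.val_add_one_of_lt (Fin.lt_last_iff_ne_last.2 hj)
            simp only [offP, offH, st, π, o, ht, lo, this, if_true, Bool.false_eq_true, if_false,
              Nat.add_one_ne_zero, decide_true, Bool.not_true, Bool.not_false, Bool.true_eq_false]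
            omega
        · by_cases hj : j.val = 0
          · simp [offP, st, hj]
          · simp only [offP, offH, st, π, o, ht, hi, hj, if_true, Bool.false_eq_true, if_false,
              decide_false, Bool.not_true, Bool.not_false]
            exact le_rfl
      · by_cases hj : j.val = 0
        · cases b
          · simp [offP, st, hj]
          · simp only [offP, offH, st, π, o, hi, hj, if_true]
            simp
        · by_cases hl : ((x.val, b) : ℕ × Bool) = (0, true)
          · have hx : ((x, b) : Fin n × Bool) = (⟨0, hn⟩, true) := by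
              simp only [Prod.mk.injEq] at hl ⊢
              exact ⟨Fin.ext hl.1, hl.2⟩
            obtain ⟨g1, g2⟩ := hgood j hj
            simp only [offP, offH, st, π, o, hi, hj, hx, if_true, if_false, Equiv.swap_apply_left,
              g1, g2]
            split_ifs <;> simp_all
          · simp only [offP, st, hj, hl, if_true, if_false]
            exact Nat.zero_le _
  · rintro ⟨l, j, s, k⟩ ⟨l', j', s', k'⟩ ⟨⟨e1, e2, e3, e4⟩, e5⟩
    simp only [toCen, Prod.mk.injEq] at e1 e2 e3 e4 e5
    subst e5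
    subst e4
    have hl : l = l' := Prod.ext (Fin.ext e1.1) e1.2
    have hj : j = j' := Fin.ext e2
    subst hl hj
    simpa [mateH, toCen] using e3

end Pool.Agent.Work.MP_143e72_lc
end

-- merged part: Pool.Agent.Work.MP_143e72_lc.Enc
section
/-!
Explicit form of the encoding of instances, and the verifier.
-/

namespace Pool.Agent.Work.MP_143e72_lc

open SimpleGraph

def dl (l : List Bool) : List Bool := l.flatMap (fun b => [true, b]) ++ [false]

def encRow (r : List Bool) : List Bool :=
  r.flatMap (fun b => [true, true, true, b, true, false]) ++ [false]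

def encMat (A : List (List Bool)) : List Bool := A.flatMap encRow

def encTwo (A B : List (List Bool)) : List Bool := dl (encMat A) ++ encMat B

theorem delimit_eq (l : List Bool) : N487b59b3.delimit l = dl l := by
  induction l with
  | nil => rfl
  | cons b l ih => simp [N487b59b3.delimit, ih, dl]

theorem enc_row (r : List Bool) : N487b59b3.delimit (N487b59b3.bitEncode r) = encRow r := by
  change N487b59b3.delimit ((r.map N487b59b3.bitEncode).map N487b59b3.delimit).flatten = _
  induction r with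
  | nil => rfl
  | cons b r ih =>
    simp only [List.map_cons, List.flatten_cons]
    change true :: true :: true :: b :: true :: false ::
      N487b59b3.delimit ((r.map N487b59b3.bitEncode).map N487b59b3.delimit).flatten = _
    rw [ih]
    simp [encRow]

theorem enc_mat (A : List (List Bool)) : N487b59b3.bitEncode A = encMat A := by
  change ((A.map N487b59b3.bitEncode).map N487b59b3.delimit).flatten = _
  rw [List.map_map, encMat, List.flatMap_def]
  congr 1
  exact List.map_congr_left fun r _ => enc_row r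

theorem enc_two (A B : List (List Bool)) : N487b59b3.bitEncode (A, B) = encTwo A B := by
  change N487b59b3.delimit (N487b59b3.bitEncode A) ++ N487b59b3.bitEncode B = _
  rw [enc_mat, enc_mat, delimit_eq, encTwo]

theorem encTwo_inj {A B A' B' : List (List Bool)} (h : encTwo A B = encTwo A' B') :
    A = A' ∧ B = B' := by
  rw [← enc_two, ← enc_two] at h
  simpa using N487b59b3.bitEncode_injective h

theorem flatMap_get {α β : Type} (f : α → List β) (c : ℕ) (l : List α)
    (h : ∀ a ∈ l, (f a).length = c) (i j : ℕ) (hj : j < c) :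
    (l.flatMap f)[i * c + j]? = l[i]?.bind fun a => (f a)[j]? := by
  induction l generalizing i with
  | nil => simp
  | cons a l ih =>
    have ha := h a List.mem_cons_self
    cases i with
    | zero => simp [List.getElem?_append_left (ha ▸ hj : j < (f a).length)]
    | succ i =>
      rw [List.flatMap_cons, List.getElem?_append_right (by rw [ha, Nat.succ_mul]; omega),
        List.getElem?_cons_succ, ← ih (fun a h' => h a (List.mem_cons_of_mem _ h'))]
      congr 1
      rw [ha, Nat.succ_mul]; omega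

theorem flatMap_len {α β : Type} (f : α → List β) (c : ℕ) (l : List α)
    (h : ∀ a ∈ l, (f a).length = c) : (l.flatMap f).length = l.length * c := by
  induction l with
  | nil => simp
  | cons a l ih =>
    rw [List.flatMap_cons, List.length_append, h a List.mem_cons_self,
      ih (fun a h' => h a (List.mem_cons_of_mem _ h')), List.length_cons, Nat.succ_mul]
    omega

theorem encRow_len (r : List Bool) : (encRow r).length = 6 * r.length + 1 := by
  rw [encRow, List.length_append, flatMap_len _ 6 _ (fun _ _ => rfl)]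
  simp [Nat.mul_comm]

theorem encRow_get (r : List Bool) (j : ℕ) (hj : j < r.length) :
    (encRow r)[j * 6 + 3]? = r[j]? := by
  rw [encRow, List.getElem?_append_left (by rw [flatMap_len _ 6 _ (fun _ _ => rfl)]; omega),
    flatMap_get _ 6 _ (fun _ _ => rfl) j 3 (by omega), List.getElem?_eq_getElem hj]
  rfl

theorem dl_len (l : List Bool) : (dl l).length = 2 * l.length + 1 := by
  rw [← delimit_eq, N487b59b3.length_delimit]

theorem dl_get (l : List Bool) (j : ℕ) (hj : j < l.length) : (dl l)[j * 2 + 1]? = l[j]? := by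
  rw [dl, List.getElem?_append_left (by rw [flatMap_len _ 2 _ (fun _ _ => rfl)]; omega),
    flatMap_get _ 2 _ (fun _ _ => rfl) j 1 (by omega), List.getElem?_eq_getElem hj]
  rfl

/-- The square matrix of a function. -/
def mat (n : ℕ) (A : ℕ → ℕ → Bool) : List (List Bool) :=
  (List.range n).map fun i => (List.range n).map fun j => A i j

theorem encMat_mat_len (n : ℕ) (A : ℕ → ℕ → Bool) : (encMat (mat n A)).length = n * (6 * n + 1) := by
  rw [encMat, flatMap_len _ (6 * n + 1)]
  · simp [mat]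
  · intro r hr
    simp only [mat, List.mem_map] at hr
    obtain ⟨i, -, rfl⟩ := hr
    simp [encRow_len]

theorem encMat_mat_get (n : ℕ) (A : ℕ → ℕ → Bool) (i j : ℕ) (hi : i < n) (hj : j < n) :
    (encMat (mat n A))[i * (6 * n + 1) + (j * 6 + 3)]? = some (A i j) := by
  rw [encMat, flatMap_get _ (6 * n + 1) _ _ i _ (by omega)]
  · simp only [mat, List.getElem?_map, List.getElem?_range hi, Option.map_some, Option.bind_some]
    rw [encRow_get _ _ (by simpa using hj)]
    simp [hj]
  · intro r hr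
    simp only [mat, List.mem_map] at hr
    obtain ⟨i, -, rfl⟩ := hr
    simp [encRow_len]

/-- Entry of the first matrix read from a string. -/
def rdA (x : List Bool) (n i j : ℕ) : Bool :=
  x.getD ((i * (6 * n + 1) + (j * 6 + 3)) * 2 + 1) false

/-- Entry of the second matrix read from a string. -/
def rdB (x : List Bool) (n m i j : ℕ) : Bool :=
  x.getD (2 * (n * (6 * n + 1)) + 1 + (i * (6 * m + 1) + (j * 6 + 3))) false

theorem idx_lt {n i j : ℕ} (hi : i < n) (hj : j < n) :
    i * (6 * n + 1) + (j * 6 + 3) < n * (6 * n + 1) := by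
  have := Nat.mul_le_mul_right (6 * n + 1) (Nat.succ_le_of_lt hi)
  rw [Nat.succ_mul] at this
  omega

theorem rdA_enc (n m : ℕ) (A B : ℕ → ℕ → Bool) (i j : ℕ) (hi : i < n) (hj : j < n) :
    rdA (encTwo (mat n A) (mat m B)) n i j = A i j := by
  have h := idx_lt hi hj
  rw [rdA, encTwo, List.getD_eq_getElem?_getD,
    List.getElem?_append_left (by rw [dl_len, encMat_mat_len]; omega),
    dl_get _ _ (by rw [encMat_mat_len]; exact h), encMat_mat_get _ _ _ _ hi hj]
  rfl

theorem rdB_enc (n m : ℕ) (A B : ℕ → ℕ → Bool) (i j : ℕ) (hi : i < m) (hj : j < m) :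
    rdB (encTwo (mat n A) (mat m B)) n m i j = B i j := by
  rw [rdB, encTwo, List.getD_eq_getElem?_getD,
    List.getElem?_append_right (by rw [dl_len, encMat_mat_len]; omega), dl_len, encMat_mat_len,
    Nat.add_sub_cancel_left, encMat_mat_get _ _ _ _ hi hj]
  rfl

theorem mat_congr {n : ℕ} {A B : ℕ → ℕ → Bool} (h : ∀ i < n, ∀ j < n, A i j = B i j) :
    mat n A = mat n B := by
  refine List.map_congr_left fun i hi => List.map_congr_left fun j hj => ?_
  exact h i (List.mem_range.1 hi) j (List.mem_range.1 hj)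

/-- The graph of a symmetric irreflexive matrix. -/
def matGraph (n : ℕ) (A : ℕ → ℕ → Bool) (hs : ∀ i < n, ∀ j < n, A i j = A j i)
    (hi : ∀ i < n, A i i = false) : SimpleGraph (Fin n) where
  Adj i j := A i j = true
  symm := ⟨fun i j h => by rw [← hs _ i.2 _ j.2]; exact h⟩
  loopless := ⟨fun i h => by rw [hi _ i.2] at h; cases h⟩

theorem adjRows_eq {n : ℕ} (G : SimpleGraph (Fin n)) (A : ℕ → ℕ → Bool)
    (h : ∀ i j : Fin n, G.Adj i j ↔ A i j = true) : adjRows G = mat n A := by
  refine List.ext_getElem (by simp [adjRows, mat]) fun i h1 h2 => ?_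
  simp only [adjRows, mat, List.getElem_ofFn, List.getElem_map, List.getElem_range]
  refine List.ext_getElem (by simp) fun j h3 h4 => ?_
  simp only [List.getElem_ofFn, List.getElem_map, List.getElem_range, h]
  simp

theorem exists_mat {n : ℕ} (G : SimpleGraph (Fin n)) :
    ∃ A : ℕ → ℕ → Bool, ∀ i j : Fin n, G.Adj i j ↔ A i j = true := by
  classical
  refine ⟨fun i j => if h : i < n ∧ j < n then decide (G.Adj ⟨i, h.1⟩ ⟨j, h.2⟩) else false, ?_⟩
  intro i j
  simp

theorem mat_inj {n n' : ℕ} {A A' : ℕ → ℕ → Bool} (h : mat n A = mat n' A') :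
    n = n' ∧ ∀ i < n, ∀ j < n, A i j = A' i j := by
  have e : n = n' := by simpa [mat] using congrArg List.length h
  subst e
  refine ⟨rfl, fun i hi j hj => ?_⟩
  have := congrArg (fun M : List (List Bool) => (M[i]?.bind fun r => r[j]?)) h
  simpa [mat, hi, hj] using this

theorem adjRows_inj {n n' : ℕ} {G : SimpleGraph (Fin n)} {G' : SimpleGraph (Fin n')}
    (h : adjRows G = adjRows G') : Nonempty (G ≃g G') := by
  obtain ⟨A, hA⟩ := exists_mat G
  obtain ⟨A', hA'⟩ := exists_mat G'
  rw [adjRows_eq G A hA, adjRows_eq G' A' hA'] at h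
  obtain ⟨rfl, h2⟩ := mat_inj h
  have : G = G' := by
    ext i j
    rw [hA, hA', h2 _ i.2 _ j.2]
  subst this
  exact ⟨Iso.refl⟩

theorem subIso_encode {V : Type} (F : SimpleGraph V) {n m : ℕ} (G : SimpleGraph (Fin n))
    (H : SimpleGraph (Fin m)) :
    subIso F (encodeInstance G H) = true ↔ F.Free G ∧ F.Free H ∧ H ⊑ G := by
  simp only [subIso, decide_eq_true_eq]
  constructor
  · rintro ⟨n', m', G', H', e, h1, h2, h3⟩
    rw [encodeInstance, encodeInstance, enc_two, enc_two] at e
    obtain ⟨eG⟩ := adjRows_inj (encTwo_inj e).1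
    obtain ⟨eH⟩ := adjRows_inj (encTwo_inj e).2
    exact ⟨(free_congr_right eG).2 h1, (free_congr_right eH).2 h2,
      (isContained_congr eH eG).2 h3⟩
  · intro h
    exact ⟨n, m, G, H, rfl, h⟩

/-- All lists of length `k` with entries below `n`. -/
def tuples : ℕ → ℕ → List (List ℕ)
  | 0, _ => [[]]
  | k + 1, n => (List.range n).flatMap fun a => (tuples k n).map fun t => a :: t

theorem mem_tuples (k n : ℕ) (t : List ℕ) :
    t ∈ tuples k n ↔ t.length = k ∧ ∀ a ∈ t, a < n := by
  induction k generalizing t with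
  | zero =>
    simp only [tuples, List.mem_singleton, List.length_eq_zero_iff]
    exact ⟨fun h => ⟨h, by simp [h]⟩, fun h => h.1⟩
  | succ k ih =>
    simp only [tuples, List.mem_flatMap, List.mem_range, List.mem_map, ih]
    constructor
    · rintro ⟨a, ha, t', ⟨h1, h2⟩, rfl⟩
      exact ⟨by simp [h1], by simpa [ha] using h2⟩
    · rintro ⟨h1, h2⟩
      cases t with
      | nil => simp at h1
      | cons a t' =>
        simp only [List.length_cons, Nat.add_right_cancel_iff, List.forall_mem_cons] at h1 h2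
        exact ⟨a, h2.1, t', ⟨h1, h2.2⟩, rfl⟩

open Classical in
/-- The table of a fixed graph. -/
noncomputable def table {k : ℕ} (F : SimpleGraph (Fin k)) : List (ℕ × ℕ × Bool) :=
  (Finset.univ : Finset (Fin k × Fin k)).toList.map fun z =>
    (z.1.val, z.2.val, decide (F.Adj z.1 z.2))

/-- No tuple is a copy of the graph with table `tb`. -/
def freeB (k : ℕ) (tb : List (ℕ × ℕ × Bool)) (n : ℕ) (A : ℕ → ℕ → Bool) : Bool :=
  (tuples k n).all fun t => !(tb.all fun z =>
    (decide (z.1 = z.2.1) || !decide (t.getD z.1 0 = t.getD z.2.1 0)) &&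
      (!z.2.2 || A (t.getD z.1 0) (t.getD z.2.1 0)))

theorem freeB_iff {k n : ℕ} (F : SimpleGraph (Fin k)) (G : SimpleGraph (Fin n))
    (A : ℕ → ℕ → Bool) (h : ∀ i j : Fin n, G.Adj i j ↔ A i j = true) :
    freeB k (table F) n A = true ↔ F.Free G := by
  simp only [freeB, List.all_eq_true, mem_tuples, Bool.not_eq_true', ← Bool.not_eq_true, table,
    List.forall_mem_map, Finset.mem_toList, Finset.mem_univ, forall_true_left, Bool.and_eq_true,
    Bool.or_eq_true, decide_eq_true_eq, Bool.not_eq_true']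
  constructor
  · rintro hf ⟨f⟩
    refine hf (List.ofFn fun i => (f i).val) ⟨by simp, ?_⟩ ?_
    · intro a ha
      obtain ⟨i, rfl⟩ := List.mem_ofFn.1 ha
      exact (f i).2
    · rintro ⟨u, v⟩
      have e : ∀ u : Fin k, (List.ofFn fun i => (f i).val).getD u.val 0 = (f u).val := by
        intro u; simp
      dsimp only
      rw [e, e]
      refine ⟨?_, ?_⟩
      · by_cases huv : u = v
        · exact Or.inl (by rw [huv])
        · exact Or.inr fun e => huv (f.injective (Fin.ext e))
      · by_cases huv : F.Adj u v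
        · exact Or.inr ((h _ _).1 (f.toHom.map_adj huv))
        · exact Or.inl huv
  · rintro hf t ⟨h1, h2⟩ h3
    apply hf
    have lt : ∀ u : Fin k, t.getD u.val 0 < n := by
      intro u
      have hu : u.val < t.length := h1 ▸ u.2
      rw [List.getD_eq_getElem _ _ hu]
      exact h2 _ (List.getElem_mem hu)
    refine ⟨⟨⟨fun u => ⟨t.getD u.val 0, lt u⟩, ?_⟩, ?_⟩⟩
    · intro u v huv
      rcases (h3 (u, v)).2 with h4 | h4
      · exact absurd huv h4
      · exact (h _ _).2 h4
    · intro u v e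
      have e' : t.getD u.val 0 = t.getD v.val 0 := congrArg Fin.val e
      rcases (h3 (u, v)).1 with h4 | h4
      · exact Fin.ext h4
      · exact absurd e' h4

/-- The witness describes an injective homomorphism. -/
def copyB (n m : ℕ) (A B : ℕ → ℕ → Bool) (w : List Bool) : Bool :=
  (List.range m).all (fun i => (List.range n).any fun a => w.getD (i * n + a) false) &&
  (List.range m).all fun i => (List.range m).all fun j => (List.range n).all fun a =>
    (List.range n).all fun b => !w.getD (i * n + a) false || !w.getD (j * n + b) false ||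
      ((decide (i = j) || !decide (a = b)) && (!B i j || A a b))

theorem copyB_iff {n m : ℕ} (G : SimpleGraph (Fin n)) (H : SimpleGraph (Fin m))
    (A B : ℕ → ℕ → Bool) (hA : ∀ i j : Fin n, G.Adj i j ↔ A i j = true)
    (hB : ∀ i j : Fin m, H.Adj i j ↔ B i j = true) (N : ℕ) (hN : m * n ≤ N) :
    (∃ w : List Bool, w.length ≤ N ∧ copyB n m A B w = true) ↔ H ⊑ G := by
  simp only [copyB, List.all_eq_true, List.any_eq_true, List.mem_range, Bool.and_eq_true,
    Bool.or_eq_true, decide_eq_true_eq, Bool.not_eq_true', ← Bool.not_eq_true]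
  constructor
  · rintro ⟨w, -, h1, h2⟩
    choose f hf1 hf2 using h1
    have key : ∀ i j : Fin m, (i.val = j.val ∨ ¬ f i i.2 = f j j.2) ∧
        (¬ B i j = true ∨ A (f i i.2) (f j j.2) = true) := by
      intro i j
      rcases h2 i i.2 j j.2 _ (hf1 i i.2) _ (hf1 j j.2) with (h | h) | h
      · exact absurd (hf2 i i.2) h
      · exact absurd (hf2 j j.2) h
      · exact h
    refine ⟨⟨⟨fun i => ⟨f i i.2, hf1 i i.2⟩, ?_⟩, ?_⟩⟩
    · intro i j hij
      rcases (key i j).2 with h | h
      · exact absurd ((hB _ _).1 hij) h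
      · exact (hA _ _).2 h
    · intro i j e
      rcases (key i j).1 with h | h
      · exact Fin.ext h
      · exact absurd (congrArg Fin.val e) h
  · rintro ⟨f⟩
    let w : List Bool := (List.finRange m).flatMap fun i =>
      (List.range n).map fun a => decide ((f i).val = a)
    have hw : ∀ (i : Fin m) a, a < n → (w.getD (i.val * n + a) false = true ↔ (f i).val = a) := by
      intro i a ha
      rw [List.getD_eq_getElem?_getD, flatMap_get _ n _ (by simp) _ _ ha]
      simp [ha]
    refine ⟨w, ?_, ?_, ?_⟩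
    · rw [flatMap_len _ n _ (by simp)]
      simpa using hN
    · intro i hi
      exact ⟨_, (f ⟨i, hi⟩).2, (hw ⟨i, hi⟩ _ (f ⟨i, hi⟩).2).2 rfl⟩
    · intro i hi j hj a ha b hb
      by_cases h1 : w.getD (i * n + a) false = true
      · by_cases h2 : w.getD (j * n + b) false = true
        · have e1 := (hw ⟨i, hi⟩ a ha).1 h1
          have e2 := (hw ⟨j, hj⟩ b hb).1 h2
          subst e1 e2
          refine Or.inr ⟨?_, ?_⟩
          · by_cases hij : i = j
            · exact Or.inl hij
            · exact Or.inr fun e => hij (congrArg Fin.val (f.injective (Fin.ext e)))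
          · by_cases hij : B i j = true
            · exact Or.inr ((hA _ _).1 (f.toHom.map_adj ((hB ⟨i, hi⟩ ⟨j, hj⟩).2 hij)))
            · exact Or.inl hij
        · exact Or.inl (Or.inr h2)
      · exact Or.inl (Or.inl h1)

/-- The matrix is symmetric with zero diagonal. -/
def simpleB (n : ℕ) (A : ℕ → ℕ → Bool) : Bool :=
  (List.range n).all fun i => !A i i && (List.range n).all fun j => !A i j || A j i

theorem simpleB_iff (n : ℕ) (A : ℕ → ℕ → Bool) : simpleB n A = true ↔
    (∀ i < n, ∀ j < n, A i j = A j i) ∧ ∀ i < n, A i i = false := by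
  simp only [simpleB, List.all_eq_true, List.mem_range, Bool.and_eq_true, Bool.not_eq_true',
    Bool.or_eq_true]
  constructor
  · intro h
    refine ⟨fun i hi j hj => ?_, fun i hi => (h i hi).1⟩
    have h1 := (h i hi).2 j hj
    have h2 := (h j hj).2 i hi
    revert h1 h2
    cases A i j <;> cases A j i <;> simp
  · intro h i hi
    refine ⟨h.2 i hi, fun j hj => ?_⟩
    rw [h.1 i hi j hj]
    cases A j i <;> simp

/-- The verifier. -/
def verif (k : ℕ) (tb : List (ℕ × ℕ × Bool)) (p : List Bool × List Bool) : Bool :=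
  (List.range (p.1.length + 1)).any fun n => (List.range (p.1.length + 1)).any fun m =>
    decide (p.1 = encTwo (mat n (rdA p.1 n)) (mat m (rdB p.1 n m))) &&
    simpleB n (rdA p.1 n) && simpleB m (rdB p.1 n m) &&
    freeB k tb n (rdA p.1 n) && freeB k tb m (rdB p.1 n m) &&
    copyB n m (rdA p.1 n) (rdB p.1 n m) p.2

theorem verif_iff {k : ℕ} (F : SimpleGraph (Fin k)) (x : List Bool) :
    subIso F x = true ↔
      ∃ w : List Bool, w.length ≤ x.length * x.length ∧ verif k (table F) (x, w) = true := by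
  simp only [subIso, decide_eq_true_eq, verif, List.any_eq_true, List.mem_range,
    Bool.and_eq_true, simpleB_iff]
  constructor
  · rintro ⟨n, m, G, H, e, h1, h2, h3⟩
    obtain ⟨A, hA⟩ := exists_mat G
    obtain ⟨B, hB⟩ := exists_mat H
    rw [encodeInstance, enc_two, adjRows_eq G A hA, adjRows_eq H B hB] at e
    have len : x.length = 2 * (n * (6 * n + 1)) + 1 + m * (6 * m + 1) := by
      rw [e, encTwo, List.length_append, dl_len, encMat_mat_len, encMat_mat_len]
    have hn : n ≤ x.length := by rw [len]; nlinarith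
    have hm : m ≤ x.length := by rw [len]; nlinarith
    have rA : ∀ i < n, ∀ j < n, rdA x n i j = A i j := fun i hi j hj => by
      rw [e]; exact rdA_enc _ _ _ _ _ _ hi hj
    have rB : ∀ i < m, ∀ j < m, rdB x n m i j = B i j := fun i hi j hj => by
      rw [e]; exact rdB_enc _ _ _ _ _ _ hi hj
    have hA' : ∀ i j : Fin n, G.Adj i j ↔ rdA x n i j = true := fun i j => by
      rw [rA _ i.2 _ j.2, hA]
    have hB' : ∀ i j : Fin m, H.Adj i j ↔ rdB x n m i j = true := fun i j => by
      rw [rB _ i.2 _ j.2, hB]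
    obtain ⟨w, hw1, hw2⟩ := (copyB_iff G H _ _ hA' hB' _ (Nat.mul_le_mul hm hn)).2 h3
    have sy : ∀ {n : ℕ} (G : SimpleGraph (Fin n)) (A : ℕ → ℕ → Bool),
        (∀ i j : Fin n, G.Adj i j ↔ A i j = true) →
        (∀ i < n, ∀ j < n, A i j = A j i) ∧ ∀ i < n, A i i = false := by
      intro n G A hA
      refine ⟨fun i hi j hj => ?_, fun i hi => ?_⟩
      · rw [Bool.eq_iff_iff, ← hA ⟨i, hi⟩ ⟨j, hj⟩, ← hA ⟨j, hj⟩ ⟨i, hi⟩, G.adj_comm]
      · rw [← Bool.not_eq_true, ← hA ⟨i, hi⟩ ⟨i, hi⟩]
        exact G.irrefl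
    refine ⟨w, hw1, n, by omega, m, by omega, ⟨⟨⟨⟨?_, sy G _ hA'⟩, sy H _ hB'⟩, ?_⟩, ?_⟩, hw2⟩
    · rw [mat_congr rA, mat_congr rB]; exact e
    · exact (freeB_iff F G _ hA').2 h1
    · exact (freeB_iff F H _ hB').2 h2
  · rintro ⟨w, -, n, -, m, -, ⟨⟨⟨⟨e, s1⟩, s2⟩, f1⟩, f2⟩, c⟩
    refine ⟨n, m, matGraph n _ s1.1 s1.2, matGraph m _ s2.1 s2.2, ?_, ?_, ?_, ?_⟩
    · rw [encodeInstance, enc_two, adjRows_eq _ (rdA x n) (fun _ _ => Iff.rfl),
        adjRows_eq _ (rdB x n m) (fun _ _ => Iff.rfl)]
      exact e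
    · exact (freeB_iff F _ _ (fun _ _ => Iff.rfl)).1 f1
    · exact (freeB_iff F _ _ (fun _ _ => Iff.rfl)).1 f2
    · exact (copyB_iff _ _ _ _ (fun _ _ => Iff.rfl) (fun _ _ => Iff.rfl) (w.length + m * n)
        (by omega)).1 ⟨w, by omega, c⟩

end Pool.Agent.Work.MP_143e72_lc
end

-- merged part: Pool.Agent.Work.MP_143e72_lc.Red
section
/-!
The reduction as a map from formulas to bit strings, and its correctness.
-/

namespace Pool.Agent.Work.MP_143e72_lc

open SimpleGraph

/-- A strict bound for the variables. -/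
def nv (φ : List (List (ℕ × Bool))) : ℕ := (φ.map fun c => (c.map fun l => l.1).sum).sum + 1

theorem lt_nv (φ : List (List (ℕ × Bool))) : ∀ c ∈ φ, ∀ l ∈ c, l.1 < nv φ := by
  intro c hc l hl
  have h1 : l.1 ≤ (c.map fun l => l.1).sum := List.le_sum_of_mem (List.mem_map_of_mem hl)
  have h2 : (c.map fun l => l.1).sum ≤ (φ.map fun c => (c.map fun l => l.1).sum).sum :=
    List.le_sum_of_mem (List.mem_map_of_mem (f := fun c => (c.map fun l => l.1).sum) hc)
  unfold nv
  omega

/-- The number of slots at each centre. -/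
def kk (φ : List (List (ℕ × Bool))) : ℕ := 2 + (φ.length + 2) * (4 * (nv φ + φ.length) + 4)

/-- The number of vertices. -/
def nn (φ : List (List (ℕ × Bool))) : ℕ := nv φ * (φ.length + 1) * 8 * (kk φ + 1)

/-- The centre with a given number. -/
def decC (m c : ℕ) : Cen :=
  ((c / 8 / (m + 1), decide (c % 2 = 1)), c / 8 % (m + 1), decide (c / 2 % 2 = 1),
    decide (c / 4 % 2 = 1))

theorem decC_inj {m c c' : ℕ} (h : decC m c = decC m c') : c = c' := by
  simp only [decC, Prod.mk.injEq, decide_eq_decide] at h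
  obtain ⟨⟨h1, h2⟩, h3, h4, h5⟩ := h
  have e : c / 8 = c' / 8 := by
    rw [← Nat.div_add_mod (c / 8) (m + 1), ← Nat.div_add_mod (c' / 8) (m + 1), h1, h3]
  omega

def adjN (K : ℕ) (sz : ℕ → ℕ) (mt : ℕ → ℕ → Bool) (u v : ℕ) : Bool :=
  (decide (u % (K + 1) = 0) && decide (v % (K + 1) = 0) && mt (u / (K + 1)) (v / (K + 1))) ||
  (decide (u / (K + 1) = v / (K + 1)) && decide (u % (K + 1) = 0) && decide (1 ≤ v % (K + 1)) &&
    decide (v % (K + 1) ≤ sz (u / (K + 1)))) ||
  (decide (u / (K + 1) = v / (K + 1)) && decide (v % (K + 1) = 0) && decide (1 ≤ u % (K + 1)) &&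
    decide (u % (K + 1) ≤ sz (u / (K + 1))))

/-- Mates in the host, on numbers. -/
def mtH (c d : ℕ) : Bool :=
  decide (c / 4 = d / 4) && decide (c % 2 = d % 2) && !decide (c / 2 % 2 = d / 2 % 2)

def mtP (c d : ℕ) : Bool := mtH c d && decide (c / 4 % 2 = 0)

theorem mtH_iff (m c d : ℕ) : mtH c d = true ↔ mateH (decC m c) (decC m d) := by
  simp only [mtH, mateH, decC, Prod.mk.injEq, decide_eq_decide, Bool.and_eq_true,
    decide_eq_true_eq, Bool.not_eq_true', decide_eq_false_iff_not, ne_eq]
  constructor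
  · rintro ⟨⟨h1, h2⟩, h3⟩
    have e : c / 8 = d / 8 := by omega
    rw [e]
    refine ⟨⟨rfl, by omega⟩, rfl, by omega, by omega⟩
  · rintro ⟨⟨h1, h2⟩, h3, h4, h5⟩
    have e : c / 8 = d / 8 := by
      rw [← Nat.div_add_mod (c / 8) (m + 1), ← Nat.div_add_mod (d / 8) (m + 1), h1, h3]
    omega

theorem mtP_iff (m c d : ℕ) : mtP c d = true ↔ mateP (decC m c) (decC m d) := by
  simp only [mtP, mateP, Bool.and_eq_true, mtH_iff m, decide_eq_true_eq]
  refine and_congr_right fun _ => ?_
  simp only [decC, decide_eq_false_iff_not]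
  omega

def adjH (φ : List (List (ℕ × Bool))) : ℕ → ℕ → Bool :=
  adjN (kk φ) (fun c => sizeH φ (decC φ.length c)) mtH

def adjP (φ : List (List (ℕ × Bool))) : ℕ → ℕ → Bool :=
  adjN (kk φ) (fun c => sizeP φ (decC φ.length c)) mtP

/-- The reduction. -/
def red (φ : List (List (ℕ × Bool))) : List Bool :=
  encTwo (mat (nn φ) (adjH φ)) (mat (nn φ) (adjP φ))

theorem exists_equiv (n m K : ℕ) :
    ∃ E : Fin (n * (m + 1) * 8 * (K + 1)) ≃ FCen n m × Fin (K + 1),
      ∀ u, toCen (E u).1 = decC m (u.val / (K + 1)) ∧ (E u).2.val = u.val % (K + 1) := by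
  have lt : ∀ u : Fin (n * (m + 1) * 8 * (K + 1)), u.val / (K + 1) / 8 / (m + 1) < n := by
    intro u
    rw [Nat.div_lt_iff_lt_mul (by omega), Nat.div_lt_iff_lt_mul (by omega),
      Nat.div_lt_iff_lt_mul (by omega)]
    exact u.2
  let f : Fin (n * (m + 1) * 8 * (K + 1)) → FCen n m × Fin (K + 1) := fun u =>
    (((⟨_, lt u⟩, decide (u.val / (K + 1) % 2 = 1)),
      ⟨u.val / (K + 1) / 8 % (m + 1), Nat.mod_lt _ (by omega)⟩,
      decide (u.val / (K + 1) / 2 % 2 = 1), decide (u.val / (K + 1) / 4 % 2 = 1)),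
      ⟨u.val % (K + 1), Nat.mod_lt _ (by omega)⟩)
  have hf : ∀ u, toCen (f u).1 = decC m (u.val / (K + 1)) ∧ (f u).2.val = u.val % (K + 1) :=
    fun u => ⟨rfl, rfl⟩
  have hi : Function.Injective f := by
    intro u v e
    have h1 := (hf u).1
    have h2 := (hf u).2
    rw [e, (hf v).1] at h1
    rw [e, (hf v).2] at h2
    have h3 := decC_inj h1
    refine Fin.ext ?_
    rw [← Nat.div_add_mod u.val (K + 1), ← Nat.div_add_mod v.val (K + 1), h2, h3]
  have hb : Function.Bijective f :=
    (Fintype.bijective_iff_injective_and_card f).2 ⟨hi, by simp; ring⟩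
  exact ⟨Equiv.ofBijective f hb, hf⟩

theorem mateH_symm (a b : Cen) (h : mateH a b) : mateH b a :=
  ⟨h.1.symm, h.2.1.symm, h.2.2.1.symm, h.2.2.2.symm⟩

theorem mateP_symm (a b : Cen) (h : mateP a b) : mateP b a :=
  ⟨mateH_symm _ _ h.1, h.1.2.2.2 ▸ h.2⟩

theorem mateH_unique (a b c : Cen) (h : mateH a b) (h' : mateH a c) : b = c := by
  obtain ⟨l, j, s, k⟩ := a
  obtain ⟨l', j', s', k'⟩ := b
  obtain ⟨l'', j'', s'', k''⟩ := c
  simp only [mateH] at h h'
  obtain ⟨rfl, rfl, h1, rfl⟩ := h
  obtain ⟨rfl, rfl, h2, rfl⟩ := h'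
  have : s' = s'' := by
    revert h1 h2
    cases s <;> cases s' <;> cases s'' <;> simp
  rw [this]

theorem comap_adj_iff {n m K : ℕ} (E : Fin (n * (m + 1) * 8 * (K + 1)) ≃ FCen n m × Fin (K + 1))
    (hE : ∀ u, toCen (E u).1 = decC m (u.val / (K + 1)) ∧ (E u).2.val = u.val % (K + 1))
    (sz : Cen → ℕ) (mate : Cen → Cen → Prop) (mt : ℕ → ℕ → Bool)
    (hm : ∀ c d, mt c d = true ↔ mate (decC m c) (decC m d)) (hs hi) (u v) :
    ((ds K (fun c : FCen n m => sz (toCen c)) (fun a b => mate (toCen a) (toCen b)) hs hi).comap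
      E).Adj u v ↔ adjN K (fun c => sz (decC m c)) mt u.val v.val = true := by
  have e : (E u).1 = (E v).1 ↔ u.val / (K + 1) = v.val / (K + 1) := by
    rw [← toCen_injective.eq_iff, (hE u).1, (hE v).1]
    exact ⟨decC_inj, fun h => by rw [h]⟩
  simp only [comap_adj, ds_adj, adjN, Bool.or_eq_true, Bool.and_eq_true, decide_eq_true_eq, hm,
    (hE _).1, (hE _).2, e, and_assoc, or_assoc]

theorem red_iff {V : Type} (F : SimpleGraph V) (hF : pathGraph 5 ⊑ F)
    (φ : List (List (ℕ × Bool))) : subIso F (red φ) = true ↔ Sat φ := by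
  obtain ⟨E, hE⟩ := exists_equiv (nv φ) φ.length (kk φ)
  have hn : 0 < nv φ := Nat.succ_pos _
  let GH := ds (kk φ) (fun c : FCen (nv φ) φ.length => sizeH φ (toCen c))
    (fun a b => mateH (toCen a) (toCen b)) (fun _ _ => mateH_symm _ _) (fun _ h => h.2.2.1 rfl)
  let GP := ds (kk φ) (fun c : FCen (nv φ) φ.length => sizeP φ (toCen c))
    (fun a b => mateP (toCen a) (toCen b)) (fun _ _ => mateP_symm _ _) (fun _ h => h.1.2.2.1 rfl)
  have e : red φ = encodeInstance (GH.comap E) (GP.comap E) := by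
    rw [encodeInstance, enc_two,
      adjRows_eq _ (adjH φ) (comap_adj_iff E hE _ _ _ (mtH_iff _) _ _),
      adjRows_eq _ (adjP φ) (comap_adj_iff E hE _ _ _ (mtP_iff _) _ _)]
    rfl
  have fH' : (pathGraph 5).Free GH := ds_free (fun a b c h h' =>
    toCen_injective (mateH_unique _ _ _ h h'))
  have fP' : (pathGraph 5).Free GP := ds_free (fun a b c h h' =>
    toCen_injective (mateH_unique _ _ _ h.1 h'.1))
  have fH : F.Free GH := fun h => fH' (hF.trans h)
  have fP : F.Free GP := fun h => fP' (hF.trans h)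
  rw [e, subIso_encode, free_congr_right (Iso.comap E GH), free_congr_right (Iso.comap E GP),
    isContained_congr (Iso.comap E GP) (Iso.comap E GH)]
  constructor
  · rintro ⟨-, -, h⟩
    obtain ⟨g, h1, h2, h3⟩ := of_ds_contained (fun c => by unfold sizeP; omega) (by
      intro c
      have a := offP_lt φ (toCen c) (Nat.lt_succ_iff.1 c.2.1.2)
      have b : blk (toCen c).1 (toCen c).2.1 (toCen c).2.2.1 + 1 ≤
          4 * (nv φ + φ.length) + 4 := by
        have := c.1.1.2
        have := c.2.1.2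
        simp only [blk, toCen]
        split_ifs <;> omega
      have := Nat.mul_le_mul_left (φ.length + 2) b
      rw [Nat.mul_add] at this
      unfold sizeP kk
      omega) h
    exact sat_of_map φ _ hn g h1 h2 h3
  · intro h
    obtain ⟨g, h1, h2, h3⟩ := map_of_sat φ _ hn (lt_nv φ) h
    exact ⟨fH, fP, ds_contained_of g h1 h2 h3⟩

end Pool.Agent.Work.MP_143e72_lc
end

-- merged part: Pool.Agent.Work.MP_143e72_lc.Main
section
/-!
Polynomial time of the reduction and of the verifier; the completeness theorem.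
-/

namespace Pool.Agent.Work.MP_143e72_lc

open SimpleGraph Pool.Agent.Lib.Poly

variable {α : Type} [Enc α]

@[fun_prop] theorem pt_encMat {A : α → List (List Bool)} (hA : PT A) :
    PT fun x => encMat (A x) := by
  unfold encMat encRow; fun_prop

@[fun_prop] theorem pt_encTwo {A B : α → List (List Bool)} (hA : PT A) (hB : PT B) :
    PT fun x => encTwo (A x) (B x) := by
  unfold encTwo dl; fun_prop

@[fun_prop] theorem pt_mat {n : α → ℕ} {A : α → ℕ → ℕ → Bool} (hn : PT n)
    (hA : PT fun p : α × ℕ × ℕ => A p.1 p.2.1 p.2.2) : PT fun x => mat (n x) (A x) := by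
  unfold mat; fun_prop

@[fun_prop] theorem pt_rdA {x : α → List Bool} {n i j : α → ℕ} (hx : PT x) (hn : PT n)
    (hi : PT i) (hj : PT j) : PT fun a => rdA (x a) (n a) (i a) (j a) := by
  unfold rdA; fun_prop

@[fun_prop] theorem pt_rdB {x : α → List Bool} {n m i j : α → ℕ} (hx : PT x) (hn : PT n)
    (hm : PT m) (hi : PT i) (hj : PT j) : PT fun a => rdB (x a) (n a) (m a) (i a) (j a) := by
  unfold rdB; fun_prop

@[fun_prop] theorem pt_tuples (k : ℕ) {n : α → ℕ} (hn : PT n) : PT fun a => tuples k (n a) := by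
  have : PT fun n => tuples k n := by
    induction k with
    | zero => unfold tuples; fun_prop
    | succ k ih => unfold tuples; fun_prop
  exact this.comp hn

@[fun_prop] theorem pt_freeB (k : ℕ) (tb : List (ℕ × ℕ × Bool)) {n : α → ℕ}
    {A : α → ℕ → ℕ → Bool} (hn : PT n) (hA : PT fun p : α × ℕ × ℕ => A p.1 p.2.1 p.2.2) :
    PT fun x => freeB k tb (n x) (A x) := by
  unfold freeB; fun_prop

@[fun_prop] theorem pt_simpleB {n : α → ℕ} {A : α → ℕ → ℕ → Bool} (hn : PT n)
    (hA : PT fun p : α × ℕ × ℕ => A p.1 p.2.1 p.2.2) : PT fun x => simpleB (n x) (A x) := by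
  unfold simpleB; fun_prop

@[fun_prop] theorem pt_copyB {n m : α → ℕ} {A B : α → ℕ → ℕ → Bool} {w : α → List Bool}
    (hn : PT n) (hm : PT m) (hA : PT fun p : α × ℕ × ℕ => A p.1 p.2.1 p.2.2)
    (hB : PT fun p : α × ℕ × ℕ => B p.1 p.2.1 p.2.2) (hw : PT w) :
    PT fun x => copyB (n x) (m x) (A x) (B x) (w x) := by
  unfold copyB; fun_prop

theorem pt_verif (k : ℕ) (tb : List (ℕ × ℕ × Bool)) : PT (verif k tb) := by
  unfold verif; fun_prop

@[fun_prop] theorem pt_nv {φ : α → List (List (ℕ × Bool))} (h : PT φ) : PT fun x => nv (φ x) := by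
  unfold nv; fun_prop

@[fun_prop] theorem pt_kk {φ : α → List (List (ℕ × Bool))} (h : PT φ) : PT fun x => kk (φ x) := by
  unfold kk; fun_prop

@[fun_prop] theorem pt_nn {φ : α → List (List (ℕ × Bool))} (h : PT φ) : PT fun x => nn (φ x) := by
  unfold nn; fun_prop

@[fun_prop] theorem pt_decC {m c : α → ℕ} (hm : PT m) (hc : PT c) :
    PT fun x => decC (m x) (c x) := by
  unfold decC; fun_prop

@[fun_prop] theorem pt_sizeH {φ : α → List (List (ℕ × Bool))} {c : α → Cen} (h : PT φ)
    (hc : PT c) : PT fun x => sizeH (φ x) (c x) := by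
  unfold sizeH offH blk hi lo; fun_prop

@[fun_prop] theorem pt_sizeP {φ : α → List (List (ℕ × Bool))} {c : α → Cen} (h : PT φ)
    (hc : PT c) : PT fun x => sizeP (φ x) (c x) := by
  unfold sizeP offP blk st lo; fun_prop

@[fun_prop] theorem pt_mtH {c d : α → ℕ} (hc : PT c) (hd : PT d) : PT fun x => mtH (c x) (d x) := by
  unfold mtH; fun_prop

@[fun_prop] theorem pt_mtP {c d : α → ℕ} (hc : PT c) (hd : PT d) : PT fun x => mtP (c x) (d x) := by
  unfold mtP; fun_prop

theorem pt_red : PT red := by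
  unfold red adjH adjP adjN; fun_prop

theorem subIso_congr {V W : Type} {F : SimpleGraph V} {F' : SimpleGraph W} (e : F ≃g F') :
    subIso F = subIso F' := by
  funext x
  rw [subIso, subIso, decide_eq_decide]
  refine exists_congr fun n => exists_congr fun m => exists_congr fun G => exists_congr fun H => ?_
  rw [free_congr_left e, free_congr_left e]

theorem subIso_mem_np {V : Type} [Finite V] (F : SimpleGraph V) : subIso F ∈ N68a2faeb.NP := by
  obtain ⟨k, ⟨e⟩⟩ := Finite.exists_equiv_fin V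
  rw [← subIso_congr (Iso.comap e.symm F)]
  exact mem_np _ _ (pt_verif k _) (fun n => n * n) (by fun_prop) (verif_iff _)

theorem complete {V : Type} [Finite V] (F : SimpleGraph V) (hF : pathGraph 5 ⊑ F) :
    N793a5b8e.IsCompleteFor N68a2faeb.NP (subIso F) :=
  ⟨subIso_mem_np F, np_hard_of_red _ red pt_red fun φ _ => red_iff F hF φ⟩

end Pool.Agent.Work.MP_143e72_lc
end
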